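import Pool.Agent.R900.BC.GM

/-!
# The formula of Beilinson and Bloch for twists of products of elliptic curves and abelian surfaces

Let `Γ` be an **arbitrary** smooth projective geometrically connected curve over the field with
`q = p ^ a` elements (of any genus, with any Newton polygon), and let `K` be its function field. Let
`K'` be any finite Galois extension of `K` with the same field of constants (with any ramification, also
wild), the function field of a curve `Γ'`, and let `G` be its Galois group. Let `A` be a **product of
elliptic curves and abelian surfaces** over the finite field on which `G` acts, and let `X` be the twist
of `A_K` by this action, an abelian variety over `K` that becomes isomorphic to `A` over `K'`.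

* For `G = 1` the abelian variety `X = A_K` is constant.
* For `G = {1, -1}` this is the quadratic twist by `K' / K`. For the Jacobian variety of the curve
  `y ^ 2 = f (x)` over the finite field and `K' = K (√D)` it is the Jacobian variety of
  `D y ^ 2 = f (x)`.
* `X` can be a product of different quadratic, cubic, quartic, sextic, quintic twists, for instance of
  elliptic curves over `K` with the `j`-invariants `0` and `1728` and of Jacobian varieties of the curves
  `y ^ 2 = x ^ 5 + D`, `D ∈ K`, or of curves `D y ^ 2 = f (x)` with different `D`.

So `X` is in general not constant, and has bad reduction at the places that ramify in `K'`.

The action of `G` has to be commutative and compatible with the product decomposition up to isogeny.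
Then by the theorems of Honda and Tate `A` is isogenous to a product of abelian varieties with
multiplication by CM fields `E i`, `[E i : ℚ] = 2 dim ≤ 4`, with Frobenius endomorphism `π i ∈ E i`, on
which the elements `g` of `G` act as `c i g ∈ E i`. Replacing `K'` by a smaller field we can suppose that
`G` is commutative; then the Jacobian variety `C` of `Γ'` with its action of `G` is isogenous to a product
of abelian varieties of the same kind, but of arbitrary dimension. Let `Y` be the product of all these
factors of `A` and `C` (`RedAV`), let `J` be the set of the indices of the factors of `C`, and let
`c : Action G Y` be the action. The only condition (in `CurvesAndSurfacesOutside`) is the following: two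
surfaces of `p`-rank one among the factors of `A` whose fields have isomorphic real quadratic subfields
have fields with the same Galois closure.

For a set `S` of `n` embeddings of the fields of the factors of `A` let `α(S)` be the product of the
eigenvalues `ψ (π i)`, and let `χ(S)` be the product of the characters `ψ (c i g)` of `G`. The cohomology
`H^n(X)` is the direct sum over the sets `S` of the characters `χ(S)` of the Galois group of `K'/K`, twisted
by `α(S)`. So its `L`-function is the product over the closed points `v` of `Γ` and the sets `S` of
`(1 - χ(S)(v) α(S) ^ deg v q ^ (- s deg v))⁻¹`, with `χ(S)(v) = 0` if `χ(S)` is ramified at `v` and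
otherwise the value at the Frobenius element.

**Theorem.** For all `k ≥ 0` (the codimension is `i = k + 1`) the Euler product of the `L`-function of
`H^(2 i - 1)(X)` converges for `Re s > i + 1 / 2`, it has a meromorphic continuation to the complex
plane, and its order at `s = i` is the dimension of the space of those classes in
`(H^(2 i - 1)(A) ⊗ H^1(Γ'))^G ⊆ H^(2 i)(A × C)` on which the Frobenius acts as multiplication by `q ^ i`
and which belong to the system `AlgS` generated (by linear combinations, cup products, pull-backs and
push-forwards between abelian varieties) by the Tate classes of degree two (divisors, by the theorem
of Tate) and by the reductions of the Hodge classes of degree four on products of elliptic curves and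
abelian surfaces with complex multiplication (algebraic by the theorem of Ramón Marí).

So these classes are algebraic: they come from `G`-invariant cycles of codimension `i` on `A × Γ'`, that
is, from homologically trivial cycles on `X`. Since all the classes in the motive
`(h^(2 i - 1)(A) ⊗ h^1(Γ'))^G` on which the Frobenius acts as `q ^ i` are algebraic, and it is of abelian
type, the theorem of Kahn (based on Kimura, O'Sullivan, Soulé, Geisser) says that there are no other
cycles modulo rational equivalence: the dimension is that of `CH^i(X)_0`, and **the formula of Beilinson
and Bloch holds for `X`, in all codimensions**.

The definitions used in the statement are in `Pool/Agent/R900/BC/GDefs.lean`, `Defs.lean`,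
`Pool/Agent/W495/TA/Defs.lean` (`RedAV`), `Pool/Agent/Y137/SF/Defs.lean` (`AlgS`) and
`Pool/Agent/R937/CS/Defs.lean`, `Defs2.lean` (`CurvesAndSurfacesOutside`).

The Tate classes in question are linear in the variables that belong to `C`. That such classes are in
`AlgS` is the theorem `Pool.Agent.R937.CS.main` of helper937 (`MP_950c68_ag.CurveTimesSurfaces`): if the
slopes of a Frobenius eigenvalue of `C` are a combination of those of elliptic curves and abelian
surfaces then they belong themselves to an elliptic curve or an abelian surface. In general there are
classes in `H^(2 i - 1)(A) ⊗ H^1(Γ)` that are not generated by divisors on `A` and correspondences between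
`A` and `Γ`, so that the starting results on constant abelian varieties, which are about such classes,
do not apply; those on twists are about the quadratic twists of abelian varieties over `𝔽_q(t)` by most
polynomials, or by special ones, and not about isotrivial abelian varieties in particular.
-/

set_option autoImplicit false

namespace Pool.Agent.Results.MP_0b9e0b_ag.TwistsOfCurvesAndSurfaces

open Pool.Agent.W495.TA Pool.Agent.R937.CS Pool.Agent.R900.BC

/-- Let `A` be a product of elliptic curves and abelian surfaces over a finite field with `q = p ^ Y.a`
elements on which the Galois group `G` of a cover of curves acts, with the closed points of degrees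
`deg`, inertia groups `I` and Frobenius elements `σ`, and let `C` be the Jacobian variety of the cover,
so that `A × C` is isogenous to `Y` and `C` to the product of the factors with an index in `J`, and `G`
acts on the factors by `c`. If any two of the surfaces of `p`-rank one in `A` whose endomorphism fields
have isomorphic real quadratic subfields have endomorphism fields with the same Galois closure, then the
Euler product of the `L`-function of `H^{2k+1}(X)`, where `X` is the twist of `A` over the function field
of the curve, has a meromorphic continuation to the complex plane whose order at `k + 1` is the
dimension of the space of the invariant algebraic classes in `H^{2k+1}(A) ⊗ H^1(C)`. -/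
theorem result (p : ℕ) [Fact p.Prime] (ν : PadicAlgCl p ≃+* ℂ) (G : Type) [Group G] [Finite G]
    (Y : RedAV p ν) (J : Set Y.X.I) (hJ : CurvesAndSurfacesOutside Y J) (c : Action G Y) (P : Type)
    (deg : P → ℕ) (I : P → Subgroup G) (σ : P → G) (hP : IsCover Y J c (r := 0) ![] ![] deg I σ)
    (k : ℕ) :
    ∃ Λ : ℂ → ℂ, IsTwistL Y J c k deg I σ Λ ∧
      meromorphicOrderAt Λ ((k : ℂ) + 1) = ((twistedRank ∅ Y J c k : ℤ) : WithTop ℤ) :=
  order_algebraic_G Y J ∅ c deg I σ ![] ![] ⟨fun l => l.elim0, fun l => l.elim0⟩ hP k
    fun f hf hlin => Pool.Agent.R937.CS.main Y J hJ.1 hJ.2 ℂ ∅ 1 (k + 1) one_pos f hf hlin.1

end Pool.Agent.Results.MP_0b9e0b_ag.TwistsOfCurvesAndSurfaces
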