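import Pool.Agent.R900.BC.GM
import Pool.Agent.Y137.GN.Main

/-!
# The formula of Beilinson and Bloch for twists of constant abelian varieties: dimension at most five

Let `Γ` be a smooth projective geometrically connected curve over the field with `q = p ^ a` elements,
and let `K` be its function field. Let `K'` be any finite Galois extension of `K` with the same field of
constants (with any ramification, also wild), the function field of a curve `Γ'`, and let `G` be its
Galois group. Let `A` be an abelian variety over the finite field on which `G` acts, through a
commutative group of automorphisms, and let `X` be the twist of `A_K` by this action, an abelian variety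
over `K` that becomes isomorphic to `A` over `K'`. For `G = 1` the abelian variety `X = A_K` is constant; for
`G = {1, -1}` it is the quadratic twist by `K' / K`; other examples are products of cyclic twists of any
degrees of Jacobian varieties of curves `y ^ m = f (x)`, the Jacobian varieties of curves
`D y ^ m = f (x)`, `D ∈ K`. In general `X` has bad reduction at the places that ramify in `K'`.

Replacing `K'` by a smaller field we can suppose that `G` is commutative. By the theorems of Honda and Tate
`A` and the Jacobian variety of `Γ'` with their actions of `G` are isogenous to products of abelian
varieties with multiplication by CM fields `E i`, `[E i : ℚ] = 2 dim`, with Frobenius endomorphism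
`π i ∈ E i`, on which the elements `g` of `G` act as `c i g ∈ E i`. Let the Jacobian variety of `Γ'` be
isogenous to `C × B`; let `Y` be the product of the factors of `A` and `C` (`RedAV`), `J` the set of the
indices of the factors of `C`, and `c : Action G Y` the action. The group `G` acts on the eigenvectors of
the Frobenius of `B` by characters `ε l`, and the eigenvalues `β l` are foreign to `Y` (`IsForeign`): either
some endomorphism of the field of complex numbers fixes a power of `β l` and is the complex conjugation
on the images of the fields `E i`, and `β l` is not of supersingular type, or the inverse of `ε l` does not
occur in the cohomology groups of odd degree of `A` (for instance, if `X` is a quadratic twist, `ε l` is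
the trivial character and so the Jacobian variety of `Γ` itself can be put into `B`). There is no
condition on the dimension of `B`.

Suppose that `A × C` is of one of the following kinds (`IsGoodAVS`).

* `dim A + dim C ≤ 5`. The abelian varieties are arbitrary otherwise.
* `A × C` is isogenous over an algebraic closure to a product of a supersingular abelian variety (of any
  dimension) and of powers (with any exponents) of elliptic curves, abelian surfaces, and abelian
  threefolds; two threefolds which are not supersingular and whose CM fields have the same Galois
  closure over `ℚ` are isogenous, unless these fields are Galois over `ℚ`.

For a set `S` of `n` embeddings of the fields of the factors of `A` let `α(S)` be the product of the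
eigenvalues `ψ (π i)`, and let `χ(S)` be the product of the characters `ψ (c i g)` of `G`. The cohomology
`H^n(X)` is the direct sum over the sets `S` of the characters `χ(S)` of the Galois group of `K'/K`, twisted
by `α(S)`. So its `L`-function is the product over the closed points `v` of `Γ` and the sets `S` of
`(1 - χ(S)(v) α(S) ^ deg v q ^ (- s deg v))⁻¹`, with `χ(S)(v) = 0` if `χ(S)` is ramified at `v` and
otherwise the value at the Frobenius element.

**Theorem.** For all `k ≥ 0` (the codimension is `i = k + 1`) the Euler product of the `L`-function of
`H^(2 i - 1)(X)` converges for `Re s > i + 1 / 2`, it has a meromorphic continuation to the complex
plane, and its order at `s = i` is the dimension of the space of those classes in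
`(H^(2 i - 1)(A) ⊗ H^1(C))^G ⊆ H^(2 i)(A × C)` on which the Frobenius acts as multiplication by `q ^ i`
and which belong to the system `AlgS` generated (by linear combinations, cup products, pull-backs and
push-forwards between abelian varieties) by the Tate classes of degree two (divisors, by the theorem
of Tate), by the reductions of the split Weil classes of degree four and six on abelian varieties of CM
type of dimension four and six (algebraic by the theorems of Markman), and by the reductions of the
Hodge classes of degree four on products of elliptic curves and abelian surfaces with complex
multiplication (algebraic by the theorem of Ramón Marí).

So these classes are algebraic: they come from `G`-invariant cycles of codimension `i` on `A × Γ'`, that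
is, from homologically trivial cycles on `X`. Since all the classes in the motive
`(h^(2 i - 1)(A) ⊗ h^1(Γ'))^G` on which the Frobenius acts as `q ^ i` are algebraic, and it is of abelian
type, the theorem of Kahn (based on Kimura, O'Sullivan, Soulé, Geisser) says that there are no other
cycles modulo rational equivalence: the dimension is that of `CH^i(X)_0`, and **the formula of Beilinson
and Bloch holds for `X`, in all codimensions**. For instance it holds in all codimensions for all
abelian fourfolds over a finite field, seen as constant abelian varieties over the function fields of
all elliptic curves, and for all quadratic twists of all abelian fourfolds (threefolds) over a finite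
field by double covers `Γ' → Γ` with genus `g(Γ') - g(Γ) ≤ 1` (respectively `≤ 2`), for instance over
`K = 𝔽_q(t)` by the function fields of all elliptic curves (respectively of all curves of genus two).

The definitions used in the statement are in `Pool/Agent/R900/BC/GDefs.lean`, `Defs.lean`,
`Pool/Agent/W495/TA/Defs.lean` (`RedAV`), `Pool/Agent/Y137/SF/Defs.lean` (`AlgS`),
`Pool/Agent/Y137/GN/Defs.lean` (`IsGoodAVS`) and `Pool/Agent/Y137/TV/Defs.lean` (`IsIndependent`).

That the Tate classes on `Y` are in `AlgS` is a theorem of the starting repository
(`Pool.Agent.Y137.GN.algS_goodS`, used there for the Tate conjecture for schemes over finite fields).
The starting results on constant abelian varieties over function fields do not apply: they are about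
classes generated by divisors and correspondences (generic Galois groups or slopes), but already on
abelian fourfolds there are exceptional Weil classes, also linear in the variables of an elliptic
curve. Those on twists are about the quadratic twists of abelian varieties over `𝔽_q(t)` by most
polynomials, or by special ones, and not about isotrivial abelian varieties in particular.
-/

set_option autoImplicit false

namespace Pool.Agent.Results.MP_0b9e0b_ag.TwistsOfDimensionFive

open Pool.Agent.W495.TA Pool.Agent.Y137.GN Pool.Agent.R900.BC

/-- Let `A` be an abelian variety over a finite field with `q = p ^ Y.a` elements on which the Galois
group `G` of a cover of curves acts, with the closed points of degrees `deg`, inertia groups `I` and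
Frobenius elements `σ`. Let `C × B` be the Jacobian variety of the cover, so that `A × C` is isogenous to
`Y` and `C` to the product of the factors with an index in `J`, `G` acts on the factors by `c`, and `B` has
the Frobenius eigenvalues `β l` on which `G` acts by the characters `ε l`, foreign to `Y`. If `Y` has
dimension at most five, or is a product of powers of small factors, then the Euler product of the
`L`-function of `H^{2k+1}(X)`, where `X` is the twist of `A` over the function field of the curve, has a
meromorphic continuation to the complex plane whose order at `k + 1` is the dimension of the space of
the invariant algebraic classes in `H^{2k+1}(A) ⊗ H^1(C)`. -/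
theorem result (p : ℕ) [Fact p.Prime] (ν : PadicAlgCl p ≃+* ℂ) (G : Type) [Group G] [Finite G]
    (Y : RedAV p ν) (hY : IsGoodAVS Y) (J : Set Y.X.I) (c : Action G Y) (r : ℕ) (β : Fin r → ℂ)
    (ε : Fin r → (G →* ℂ)) (hβ : IsForeign Y J c β ε) (P : Type) (deg : P → ℕ)
    (I : P → Subgroup G) (σ : P → G) (hP : IsCover Y J c β ε deg I σ) (k : ℕ) :
    ∃ Λ : ℂ → ℂ, IsTwistL Y J c k deg I σ Λ ∧
      meromorphicOrderAt Λ ((k : ℂ) + 1) = ((twistedRank {4, 6} Y J c k : ℤ) : WithTop ℤ) :=
  order_algebraic_G Y J {4, 6} c deg I σ β ε hβ hP k fun f hf _ =>
    algS_goodS hY 1 (k + 1) one_pos f hf

end Pool.Agent.Results.MP_0b9e0b_ag.TwistsOfDimensionFive
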