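import Pool.Agent.R900.BC.GV

/-!
# The formula of Beilinson and Bloch for products of K3 surfaces with twists of elliptic curves and
# abelian surfaces

Let `V` be a smooth projective variety over the field with `q = p ^ a` elements whose cohomology of odd
degree vanishes, for instance a K3 surface. Let `Γ` be a smooth projective geometrically connected curve
over this field and `K` its function field. Let `K'` be a finite Galois extension of `K` with the same
field of constants (with any ramification, also wild), the function field of a curve `Γ'`, and let `G`
be its Galois group. Let `A` be **any product of elliptic curves and abelian surfaces** over the finite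
field, on which `G` acts through commuting automorphisms that respect the decomposition, let `X_A` be the
twist of `A_K` by this action, an abelian variety over `K` that becomes isomorphic to `A` over `K'`, and
let `X = V × X_A`, a variety of any dimension over `K`. For `G = 1` it is the constant variety
`(V × A)_K`; for `G = {1, -1}` it is the product of `V` with the quadratic twist of `A` by `K' / K`.

By the theorems of Honda and Tate `A` and the Jacobian variety of `Γ'` with their actions of `G` are
isogenous to products of abelian varieties with multiplication by CM fields `E i`, `[E i : ℚ] = 2 dim`,
with Frobenius endomorphism `π i ∈ E i`, on which the elements `g` of `G` act as `c i g ∈ E i`. Let the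
Jacobian variety of `Γ'` be isogenous to `C × B` where the factors of `C` have at most dimension two; let
`Y` be the product of the factors of `A` and `C` (`RedAV`), `J` the set of the indices of the factors of
`C`, and `c : Action G Y` the action. The group `G` acts on the eigenvectors of the Frobenius of `B` by
characters `ε l`, and the eigenvalues `β l` are foreign to `Y` and `V` (`IsForeignV`): either some
endomorphism of the field of complex numbers fixes a power of `β l` and is the complex conjugation on
the images of the fields `E i` and the eigenvalues of `V`, and `β l` is not of supersingular type, or the
inverse of `ε l` does not occur in `H^n(A)` (for instance, if `X_A` is a quadratic twist, `ε l` is the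
trivial character and so the Jacobian variety of `Γ` can be put into `B`). There is no condition on
the dimension of `B`, and `B = 0` is allowed: this covers, for instance, all constant `V × A` over the
function fields of all curves of genus at most two, and all quadratic twists by double covers with
`g(Γ') - g(Γ) ≤ 2`, where `Γ` is arbitrary.

Suppose that (`HasSmallSlopes`) the Frobenius endomorphism `φ` of `H^b(V)` is semisimple, for all `b`,
and that for each of its eigenvalues the mean value of `(2 s - b) ^ 2`, where `s` runs through the slopes
of all conjugates of the eigenvalue, is less than `1 / 2`. Let `V` be a K3 surface of height `h`, with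
Picard number `ρ` over the algebraic closure: the Frobenius is semisimple (Deligne), the mean value is
zero for the eigenvalues of algebraic classes and `8 / (h (22 - ρ))` for the others, so that the
assumption is true for all K3 surfaces of height at least three, finite or infinite, and for all K3
surfaces of height `h` with `h (22 - ρ) > 16`, such as the ordinary ones with `ρ ≤ 4`.

By Künneth `H^(2 i - 1)(V × X_A)` is the sum of the `H^b(V) ⊗ H^n(X_A)`, `b + n + 1 = 2 i`, and its
`L`-function is the product of the `L`-functions of the summands, the Euler products over the closed
points `v` of `Γ` of the determinants (`IsTwistLV`); these are written as products over the eigenvectors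
in `H^n(A)`, which correspond to the sets `S` of `n` embeddings of the fields of the factors of `A`: the
local Galois group acts on the eigenvector as on the character `χ(S)`, the product of the
characters `ψ (c i g)` of `G`, twisted by `α(S)`, the product of the eigenvalues `ψ (π i)`.

**Theorem.** For all `i ≥ 1`, `b`, `n` with `b + n + 1 = 2 i` the Euler product of the `L`-function of
`H^b(V) ⊗ H^n(X_A)` converges for `Re s > i + 1 / 2`, it has a meromorphic continuation to the complex
plane, and its order at `s = i` is the dimension of the space of those classes in
`(H^b(V) ⊗ H^n(A) ⊗ H^1(C))^G` on which the Frobenius acts as multiplication by `q ^ i` and which are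
linear combinations of products of Tate classes on `V` (over finite extensions) with classes on
`A × C` that belong to the system `AlgS` generated (by linear combinations, cup products, pull-backs
and push-forwards between abelian varieties) by the Tate classes of degree two (divisors, by the
theorem of Tate) and by the reductions of the Hodge classes of degree four on products of elliptic
curves and abelian surfaces with complex multiplication (algebraic by the theorem of Ramón Marí).

For K3 surfaces the Tate classes on `V` are algebraic (Artin, Swinnerton-Dyer, Nygaard, Ogus, Charles,
Madapusi Pera, Maulik, Kim). So these classes are algebraic: they come from `G`-invariant cycles of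
codimension `i` on `V × A × Γ'`, which give homologically trivial cycles on `X`. In particular, the
transcendental part of `H^2(V)` contributes neither zeros of the `L`-function at `s = i`, nor classes,
although it is not assumed to be independent of `A` and `C` in any way. The formula of Beilinson and
Bloch asserts that this is the rank of `CH^i(X)_0`. If the motive of `V` is finite-dimensional, for
instance if `V` is a Kummer surface or is dominated by a product of curves, like a Fermat quartic,
then the theorem of Kahn (based on Kimura, O'Sullivan, Soulé, Geisser) says that there are no other
cycles modulo rational equivalence, and **the formula of Beilinson and Bloch holds for `X`, in all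
codimensions**.

The definitions used in the statement are in `Pool/Agent/R900/BC/GVDefs.lean`, `GDefs.lean`,
`VDefs.lean`, `Defs.lean`, `Pool/Agent/W495/TA/Defs.lean` (`RedAV`), `Pool/Agent/Y137/SF/Defs.lean`
(`AlgS`) and `Pool/Agent/R937/VS/Defs.lean` (`HasSlopes`). The proof uses the theorem of helper937 on
Tate classes on products of arbitrary varieties with elliptic curves and abelian surfaces
(`Pool.Agent.R937.VS.main`, `MP_950c68_ag.VarietyTimesSurfaces`).
-/

set_option autoImplicit false

namespace Pool.Agent.Results.MP_0b9e0b_ag.TwistsTimesK3Surfaces

open Pool.Agent.W495.TA Pool.Agent.R900.BC

/-- Let `φ` be the Frobenius endomorphism of `M = H^b(V)`, `b` even, with small slopes. Let `A` be a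
product of elliptic curves and abelian surfaces over a finite field with `q = p ^ Y.a` elements on which
the Galois group `G` of a cover of curves acts, with the closed points of degrees `deg`, inertia groups
`I` and Frobenius elements `σ`. Let `C × B` be the Jacobian variety of the cover, so that `A × C` is
isogenous to `Y`, a product of elliptic curves and abelian surfaces, `C` is isogenous to the product of
the factors with an index in `J`, `G` acts on the factors by `c`, and `B` has the Frobenius eigenvalues
`β l` on which `G` acts by the characters `ε l`, foreign to `Y` and `M`. The Euler product of the
`L`-function of `H^b(V) ⊗ H^n(X)`, where `X` is the twist of `A` over the function field of the curve,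
has a meromorphic continuation to the complex plane whose order at `i`, `b + n + 1 = 2 i`, is the
dimension of the space of the invariant algebraic classes in `H^n(A) ⊗ H^b(V) ⊗ H^1(C)`. -/
theorem result (p : ℕ) [Fact p.Prime] (ν : PadicAlgCl p ≃+* ℂ) (G : Type) [Group G] [Finite G]
    (Y : RedAV p ν) (hY : ∀ i, Module.finrank ℚ (Y.X.factor i).E ≤ 4) (J : Set Y.X.I)
    (c : Action G Y) (M : Type) [AddCommGroup M] [Module ℂ M] [FiniteDimensional ℂ M]
    (φ : M →ₗ[ℂ] M) (b n i : ℕ) (hb : Even b) (hφ : HasSmallSlopes p ν Y.a b φ)
    (hi : b + n + 1 = 2 * i) (r : ℕ) (β : Fin r → ℂ) (ε : Fin r → (G →* ℂ))
    (hβ : IsForeignV φ Y J c b n β ε) (P : Type) (deg : P → ℕ) (I : P → Subgroup G) (σ : P → G)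
    (hP : IsCover Y J c β ε deg I σ) :
    ∃ Λ : ℂ → ℂ, IsTwistLV φ Y J c n i deg I σ Λ ∧
      meromorphicOrderAt Λ (i : ℂ) = ((twistedRankV φ Y J c n i : ℤ) : WithTop ℤ) :=
  orderGV_small Y hY J c deg I σ φ b n i hb hi hφ β ε hβ hP

end Pool.Agent.Results.MP_0b9e0b_ag.TwistsTimesK3Surfaces
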