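import Pool.Agent.R904.RK.Main

/-!
# The conjecture of Beilinson and Bloch: two diagonals suffice

The rank formula `dim CH^i(X)_0 = ord_{s=i} L(H^(2i-1)(X), s)` for all varieties `X` and all `i` is
equivalent to the cases in which `dim X - 2 i` is one of two given different integers and `X` is a
rational variety. It is also equivalent to the central cases `dim X = 2 i - 1` together with the
equality of the ranks of `CH^i(X)_0` and `CH^(i+1)(X)_0` for `dim X = 2 i`. The central cases alone
are equivalent to a symmetrised formula for all `X` and `i`.
-/

set_option autoImplicit false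

open Pool.Agent.H914 Pool.Agent.H914.VarClass Pool.Agent.H914.VarClass.Obj
open Pool.Agent.R903 Pool.Agent.R904.RK

universe u v w

namespace Pool.Agent.Results.MP_0b9e0b_ag.TwoDiagonals

/-- Let `𝒱` be a class of smooth proper geometrically irreducible varieties over `k` which is closed
under products, with Chow groups `C`, a Weil cohomology theory `W` and Euler factors `E` which
satisfy hard Lefschetz, let `L` be the projective line, and let `R` be a class of varieties in `𝒱`
(for example the rational ones) which is closed under products with `L` and which contains for every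
`X` in `𝒱` a blow-up of a projective space along `X`.

1. For all integers `a ≠ b`, the rank formula holds for all `X` in `𝒱` and all `i` if and only if it
   holds for `X` in `R` and `dim X - 2 i = a` or `b`.
2. It holds for all `X` in `𝒱` and all `i` if and only if it holds for `X` in `R` and
   `dim X = 2 i - 1`, and `CH^i(X)_0` and `CH^(i+1)(X)_0` have the same rank if `X` is in `R` and
   `dim X = 2 i`.
3. It holds for all `X` in `R` with `dim X = 2 i - 1` if and only if for all `X` in `R` and all `i`
   the sum of the ranks of `CH^i(X)_0` and `CH^(dim X + 1 - i)(X)_0` is twice the order.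

(Only varieties are considered whose `L`-functions continue.) -/
theorem result {k : Type u} [Field k] {𝒱 : VarClass k} {C : ChowTheory.{u, v} 𝒱}
    (hC : C.Polarized) (W : WeilTheory.{u, v, w} C) (E : EulerFactors 𝒱) (hE : E.Basic)
    (hLef : E.Lefschetz) {L : 𝒱.Obj} (hL : IsLine C E L) (R : Set 𝒱.Obj)
    (hR : ∀ X ∈ R, X.prod L ∈ R) (hB : ∀ X, ∃ B ∈ R, ∃ c, IsBlowUp W E X B c) :
    (∀ a b : ℤ, a ≠ b →
      (AllRanks W E Set.univ ↔ RanksOnDiagonal W E R a ∧ RanksOnDiagonal W E R b)) ∧
    (AllRanks W E Set.univ ↔ RanksOnDiagonal W E R (-1) ∧ EqualRanks W E R) ∧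
    (RanksOnDiagonal W E R (-1) ↔ SymmetricRanks W E R) :=
  ⟨fun _ _ hab => all_iff_two hE hC hL R hR hB hab, all_iff_center hE hLef hC hL R hR hB,
    center_iff hE hLef hC hL R hR⟩

end Pool.Agent.Results.MP_0b9e0b_ag.TwoDiagonals
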